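import Pool.Agent.Helper289.HardyMain

/-!
# The spectrum of every weighted composition operator with automorphic symbol

`IsH2 f`: `f` is in the Hardy space `H²` of the open unit disc, i.e. `f` is analytic on the disc
with bounded integral means `(1/2π) ∫_0^{2π} |f(r e^{it})|² dt`, `0 < r < 1`. Functions on the disc
are represented by functions on `ℂ` which vanish off the disc.

For a disc automorphism `φ` and a bounded analytic `ψ` the spectrum of `T f = ψ · (f ∘ φ)` is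
determined:

* if `φ` has finite order `N`, then `σ(T) = {l : l^N ∈ closure of ψ_N(U)}`;
* if `φ` has infinite order, then `σ(T) = {l : r ≤ |l| ≤ R}` with
  `R = lim_n (sup_U g_n)^{1/n}`, `r = lim_n (inf_U g_n)^{1/n}`,

where `ψ_n = ∏_{j<n} ψ ∘ φ^j` and
`g_n(z) = |ψ_n(z)| ((1 - |z|²) / (1 - |φ^n(z)|²))^{1/2} = |ψ_n(z)| |(φ^n)'(z)|^{-1/2}`.
-/

namespace Pool.Agent.Results.MP_0e93e1_an.SpectrumAllPairs

open Metric Set Filter Topology
open scoped ComplexConjugate Real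

/-- The open unit disc. -/
def disc : Set ℂ := ball 0 1

/-- The integral mean `(1/2π) ∫_0^{2π} |f(s e^{it})|² dt`. -/
noncomputable def mean (f : ℂ → ℂ) (s : ℝ) : ℝ :=
  (2 * π)⁻¹ * ∫ t in (0 : ℝ)..(2 * π), ‖f (s * Complex.exp (t * Complex.I))‖ ^ 2

/-- The elements of the Hardy space `H²`. -/
def IsH2 (f : ℂ → ℂ) : Prop :=
  DifferentiableOn ℂ f disc ∧ (∀ z, z ∉ disc → f z = 0) ∧
    ∃ C : ℝ, ∀ s ∈ Ioo (0 : ℝ) 1, mean f s ≤ C

/-- The norm of `H²`: `‖f‖² = sup_{0<s<1} (1/2π) ∫_0^{2π} |f(s e^{it})|² dt`. -/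
noncomputable def hnorm (f : ℂ → ℂ) : ℝ := √(⨆ s : Ioo (0 : ℝ) 1, mean f s)

/-- The weighted composition operator `f ↦ ψ · (f ∘ φ)`. -/
noncomputable def wcomp (ψ φ f : ℂ → ℂ) : ℂ → ℂ := disc.indicator fun z => ψ z * f (φ z)

/-- `l - T` is a bijection of `H²` with bounded inverse, for `T f = ψ · (f ∘ φ)`: for some `K`
every `g` in `H²` is `l f - T f` for exactly one `f` in `H²`, and `‖f‖ ≤ K ‖g‖`. -/
def InResolventSet (ψ φ : ℂ → ℂ) (l : ℂ) : Prop :=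
  ∃ K : ℝ, ∀ g, IsH2 g → ∃ f, (IsH2 f ∧ (fun z => l * f z - wcomp ψ φ f z) = g) ∧
    hnorm f ≤ K * hnorm g ∧ ∀ f', IsH2 f' → (fun z => l * f' z - wcomp ψ φ f' z) = g → f' = f

/-- The spectrum of `f ↦ ψ · (f ∘ φ)` on `H²`. -/
def spec (ψ φ : ℂ → ℂ) : Set ℂ := {l : ℂ | ¬ InResolventSet ψ φ l}

/-- A disc automorphism `φ(z) = λ (a - z) / (1 - ā z)` with `|λ| = 1` and `|a| < 1`. -/
def IsDiscAut (φ : ℂ → ℂ) : Prop :=
  ∃ l a : ℂ, ‖l‖ = 1 ∧ ‖a‖ < 1 ∧ ∀ z ∈ disc, φ z = l * ((a - z) / (1 - conj a * z))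

/-- Bounded analytic functions on the disc. -/
def IsHInf (ψ : ℂ → ℂ) : Prop := DifferentiableOn ℂ ψ disc ∧ ∃ C : ℝ, ∀ z ∈ disc, ‖ψ z‖ ≤ C

/-- `φ` has order `N`: the `N`-th iterate is the identity of the disc, and no earlier one is. -/
def HasOrder (φ : ℂ → ℂ) (N : ℕ) : Prop :=
  0 < N ∧ (∀ z ∈ disc, φ^[N] z = z) ∧ ∀ m : ℕ, 0 < m → m < N → ∃ z ∈ disc, φ^[m] z ≠ z

/-- `φ` has infinite order: no iterate is the identity of the disc. -/
def HasInfiniteOrder (φ : ℂ → ℂ) : Prop := ∀ N : ℕ, 0 < N → ∃ z ∈ disc, φ^[N] z ≠ z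

/-- The weight of the `n`-th power, `ψ_n = ∏_{j<n} ψ ∘ φ^j`. -/
noncomputable def weight (ψ φ : ℂ → ℂ) (n : ℕ) (z : ℂ) : ℂ :=
  ∏ j ∈ Finset.range n, ψ (φ^[j] z)

/-- `g_n(z) = |ψ_n(z)| ((1 - |z|²) / (1 - |φ^n(z)|²))^{1/2}`, which is
`|ψ_n(z)| |(φ^n)'(z)|^{-1/2}`. -/
noncomputable def growth (ψ φ : ℂ → ℂ) (n : ℕ) (z : ℂ) : ℝ :=
  ‖weight ψ φ n z‖ * √((1 - ‖z‖ ^ 2) / (1 - ‖φ^[n] z‖ ^ 2))

open Pool.Agent.Helper289.Hardy

/-- The resolvent set in the algebra of bounded operators. -/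
theorem resolvent_iff {ψ φ : ℂ → ℂ} {T : H2 →L[ℂ] H2} (hT : IsWCO ψ φ T) (l : ℂ) :
    InResolventSet ψ φ l ↔ l ∈ resolventSet ℂ T := by
  have hTw : ∀ f : H2, wcomp ψ φ f = T f := by
    intro f
    funext z
    by_cases hz : z ∈ disc
    · rw [wcomp, indicator_of_mem hz]; exact (hT f z hz).symm
    · rw [wcomp, indicator_of_notMem hz]; exact ((T f).off hz).symm
  constructor
  · rintro ⟨K, hK⟩
    change IsUnit (algebraMap ℂ (H2 →L[ℂ] H2) l - T)
    rw [Algebra.algebraMap_eq_smul_one, ContinuousLinearMap.isUnit_iff_bijective]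
    have hform : ∀ f : H2, (fun z => l * f z - wcomp ψ φ f z) = ((l • f - T f : H2) : ℂ → ℂ) := by
      intro f; rw [hTw]; rfl
    constructor
    · intro f f' hff'
      have hff : (l • f - T f : H2) = l • f' - T f' := hff'
      obtain ⟨f0, -, -, huniq⟩ := hK ((l • f - T f : H2) : ℂ → ℂ) (l • f - T f : H2).2
      have h1 := huniq f f.2 (hform f)
      have h2 := huniq f' f'.2 (by rw [hform f', hff])
      exact Subtype.ext (h1.trans h2.symm)
    · intro g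
      obtain ⟨f, ⟨hf, hfg⟩, -, -⟩ := hK g g.2
      let F : H2 := ⟨f, hf⟩
      refine ⟨F, ?_⟩
      have h3 := hform F
      refine H2.ext fun z _ => ?_
      have h4 := congrFun h3 z
      have h5 := congrFun hfg z
      exact h4.symm.trans h5
  · intro hl
    have h1 := Pool.Agent.Helper289.Gap.res_left hl
    have h2 := Pool.Agent.Helper289.Gap.res_right hl
    refine ⟨‖resolvent T l‖, fun g hg => ?_⟩
    let G : H2 := ⟨g, hg⟩
    have hR1 : l • (resolvent T l G) - T (resolvent T l G) = G :=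
      congrArg (fun S : H2 →L[ℂ] H2 => S G) h1
    refine ⟨resolvent T l G, ⟨(resolvent T l G).2, ?_⟩, (resolvent T l).le_opNorm G, ?_⟩
    · rw [hTw]
      exact congrArg (fun f : H2 => (f : ℂ → ℂ)) hR1
    · intro f' hf' hfg
      let F : H2 := ⟨f', hf'⟩
      have h3 : l • F - T F = G := by
        refine H2.ext fun z _ => ?_
        have h4 := congrFun hfg z
        have h5 : wcomp ψ φ f' = T F := hTw F
        rw [h5] at h4
        exact h4
      have h6 : resolvent T l (l • F - T F) = F := congrArg (fun S : H2 →L[ℂ] H2 => S F) h2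
      rw [h3] at h6
      exact congrArg (fun f : H2 => (f : ℂ → ℂ)) h6.symm

theorem spec_eq {ψ φ : ℂ → ℂ} {T : H2 →L[ℂ] H2} (hT : IsWCO ψ φ T) :
    spec ψ φ = spectrum ℂ T := by
  ext l
  exact not_congr (resolvent_iff hT l)

/-- **Theorem.** The spectrum of `T f = ψ · (f ∘ φ)` on `H²`, for every disc automorphism `φ` and
every bounded analytic `ψ`. -/
theorem result (φ ψ : ℂ → ℂ) (hφ : IsDiscAut φ) (hψ : IsHInf ψ) :
    (∃ K : ℝ, ∀ f, IsH2 f → IsH2 (wcomp ψ φ f) ∧ hnorm (wcomp ψ φ f) ≤ K * hnorm f) ∧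
    (∀ N, HasOrder φ N → spec ψ φ = {l : ℂ | l ^ N ∈ closure (weight ψ φ N '' disc)}) ∧
    (HasInfiniteOrder φ → ∃ r R : ℝ,
      Tendsto (fun n : ℕ => (⨅ z : disc, growth ψ φ n z) ^ (1 / n : ℝ)) atTop (𝓝 r) ∧
      Tendsto (fun n : ℕ => (⨆ z : disc, growth ψ φ n z) ^ (1 / n : ℝ)) atTop (𝓝 R) ∧
      spec ψ φ = {l : ℂ | r ≤ ‖l‖ ∧ ‖l‖ ≤ R}) := by
  obtain ⟨l, a, hl, ha, hφ'⟩ := hφ
  obtain ⟨α, β, h, h2⟩ := exists_SU_of hl ha
  have hφ2 : ∀ z ∈ U, φ z = mob α β z := fun z hz => (hφ' z hz).trans (h2 z hz)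
  have hBA : BA ψ := hψ
  have hT : IsWCO ψ φ (wco h hBA) := wco_isWCO h hBA hφ2
  refine ⟨⟨‖wco h hBA‖, fun f hf => ?_⟩, ?_, ?_⟩
  · let F : H2 := ⟨f, hf⟩
    have hTw : wcomp ψ φ f = (wco h hBA F : ℂ → ℂ) := by
      funext z
      by_cases hz : z ∈ disc
      · rw [wcomp, indicator_of_mem hz]; exact (hT F z hz).symm
      · rw [wcomp, indicator_of_notMem hz]; exact ((wco h hBA F).off hz).symm
    rw [hTw]
    exact ⟨(wco h hBA F).2, (wco h hBA).le_opNorm F⟩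
  · rintro N ⟨hN, hid, hmin⟩
    rw [spec_eq hT]
    exact finite_order hT hBA h hφ2 hN hid hmin
  · intro hinf
    rw [spec_eq hT]
    exact infinite_order hT hBA h hφ2 hinf

end Pool.Agent.Results.MP_0e93e1_an.SpectrumAllPairs
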